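import Pool.Agent.J6H7.Clq.Num
import Pool.Agent.J6H7.Chain.Master

/-!
# Cliques need exponential size with few non-monotone gates

The circuits consist of AND and OR gates of fan-in two and of arbitrary further gates, for example
NOT gates or rounds of NOT gates. If the product of the numbers `w + 1` over the arbitrary gates
with `w` inputs is at most `n ^ (2 - ε)`, then a circuit which decides whether a graph with `n`
vertices has a clique of `k n` vertices has at least `2 ^ (n ^ δ)` AND and OR gates.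
-/

set_option autoImplicit false

namespace Pool.Agent.J6H7.Clq.CliqueFewNegations

open Filter Finset Pool.Agent.H559R4 Pool.Agent.H559R7 Pool.Agent.H520R2.NM

/-- **Cliques and few non-monotone gates.** For every `ε > 0` there are `δ > 0` and a function `k`
such that for all sufficiently large `n` every circuit over the `n * (n + 1) / 2` unordered pairs
of vertices which decides whether the graph has a clique of `k n` vertices, and in which the
product of the numbers `w + 1` over the arbitrary gates with `w` inputs is at most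
`n ^ (2 - ε)`, has at least `2 ^ (n ^ δ)` AND and OR gates. -/
theorem result (ε : ℝ) (hε : 0 < ε) : ∃ (δ : ℝ) (k : ℕ → ℕ), 0 < δ ∧ ∀ᶠ n : ℕ in atTop,
    ∀ (N : ℕ) (C : Circuit (Sym2 (Fin n)) N) (out : Wire (Sym2 (Fin n)) N),
      (((C.fanins.map (· + 1)).prod : ℕ) : ℝ) ≤ (n : ℝ) ^ (2 - ε) →
      (∀ x, out.eval x (C.vals x) = true ↔
        ¬ (SimpleGraph.fromEdgeSet {e | x e = true}).CliqueFree (k n)) →
      (2 : ℝ) ^ ((n : ℝ) ^ δ) ≤ C.size := by
  obtain ⟨α, hα, hev⟩ := Pool.Agent.J6H7.Clq.exists_big_design (ε := min ε 1)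
    (lt_min hε one_pos) (lt_of_le_of_lt (min_le_right _ _) (by norm_num))
  have hα2 : 0 < α / 2 := by positivity
  refine ⟨α / 2, fun n => 2 ^ ⌊α * Real.logb 2 n⌋₊, hα2, ?_⟩
  have hlog : ∀ᶠ n : ℕ in atTop, 2 * Real.log (n : ℝ) ≤ Real.log 2 * (n : ℝ) ^ (α / 2) := by
    have h := (isLittleO_log_rpow_atTop hα2).bound
      (show 0 < Real.log 2 / 2 from by have := Real.log_pos (show (1 : ℝ) < 2 by norm_num); positivity)
    have h' := tendsto_natCast_atTop_atTop (R := ℝ) |>.eventually h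
    filter_upwards [h', eventually_ge_atTop 1] with n hn h1
    have h2 : (1 : ℝ) ≤ n := by exact_mod_cast h1
    rw [Real.norm_of_nonneg (Real.log_nonneg h2),
      Real.norm_of_nonneg (Real.rpow_nonneg (by linarith) _)] at hn
    linarith
  filter_upwards [hev, hlog, Pool.Agent.J6H7.Clq.ev_ge hα2 3,
    Pool.Agent.J6H7.Clq.ev_ge hα (2 ^ (11 : ℝ)), eventually_ge_atTop 1]
    with n hD hlogn hy h11 hn N C out hprod hC
  obtain ⟨P, hP, ⟨D⟩⟩ := hD
  have hn1 : (1 : ℝ) ≤ n := by exact_mod_cast hn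
  have hn0 : (0 : ℝ) < n := by linarith
  set a := ⌊α * Real.logb 2 n⌋₊ with ha
  -- the size of the cliques
  have hk : (n : ℝ) ^ α / 2 ≤ (2 : ℝ) ^ a := by
    have h1 : α * Real.logb 2 n - 1 ≤ (a : ℝ) := by
      have := Nat.lt_floor_add_one (α * Real.logb 2 n)
      rw [← ha] at this
      linarith
    calc (n : ℝ) ^ α / 2 = (2 : ℝ) ^ (α * Real.logb 2 n - 1) := by
          rw [Real.rpow_sub (by norm_num), Real.rpow_one, mul_comm, Real.rpow_mul (by norm_num),
            Real.rpow_logb (by norm_num) (by norm_num) hn0]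
      _ ≤ (2 : ℝ) ^ ((a : ℕ) : ℝ) := Real.rpow_le_rpow_of_exponent_le (by norm_num) h1
      _ = (2 : ℝ) ^ a := Real.rpow_natCast _ _
  have ha10 : 10 ≤ a := by
    by_contra hcon
    have h1 : (2 : ℝ) ^ a ≤ 2 ^ 9 := pow_le_pow_right₀ (by norm_num) (by omega)
    have h2 : (2 : ℝ) ^ (11 : ℝ) = 2048 := by
      rw [show (11 : ℝ) = ((11 : ℕ) : ℝ) by norm_num, Real.rpow_natCast]
      norm_num
    rw [h2] at h11
    norm_num at h1
    linarith
  obtain ⟨κ, hκ⟩ : ∃ κ, κ + 1 = 2 ^ a := ⟨2 ^ a - 1, by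
    have : 0 < 2 ^ a := by positivity
    omega⟩
  have hκ2 : 2 ≤ κ := by
    have : 2 ^ 10 ≤ 2 ^ a := Nat.pow_le_pow_right (by norm_num) ha10
    omega
  -- the number of blocks
  have hPC : (C.fanins.map (· + 1)).prod ≤ P := by
    have h1 : (n : ℝ) ^ (2 - ε) ≤ (n : ℝ) ^ (2 - min ε 1) :=
      Real.rpow_le_rpow_of_exponent_le hn1 (by linarith [min_le_left ε 1])
    exact_mod_cast hprod.trans (h1.trans hP)
  rw [← hκ] at D
  have hmain := design_lower (κ := κ) (b := 13 * a) hκ2 (by omega) D C out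
    (fun x => by rw [hC x, ← hκ]) hPC
  have h1 := (Pool.Agent.J6H7.Clq.two_pow_le ha10 hκ).trans hmain
  -- the sum of the fan-ins is small
  have hsum : ((C.fanins.sum : ℕ) : ℝ) ≤ (n : ℝ) ^ (2 : ℝ) := by
    have h2 := Pool.Agent.J6H7.Chain.sum_succ_le_prod C.fanins
    have h3 : ((C.fanins.sum : ℕ) : ℝ) ≤ (((C.fanins.map (· + 1)).prod : ℕ) : ℝ) := by
      exact_mod_cast (by omega : C.fanins.sum ≤ (C.fanins.map (· + 1)).prod)
    exact h3.trans (hprod.trans (Real.rpow_le_rpow_of_exponent_le hn1 (by linarith)))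
  set y := (n : ℝ) ^ (α / 2) with hydef
  have hyy : (n : ℝ) ^ α = y * y := by
    rw [hydef, ← Real.rpow_add hn0]
    congr 1
    ring
  have h2 : (2 : ℝ) ^ (y + 1) ≤ C.size + (n : ℝ) ^ (2 : ℝ) := by
    have h3 : ((2 ^ (κ + 1) : ℕ) : ℝ) ≤ ((C.size + C.fanins.sum : ℕ) : ℝ) := by exact_mod_cast h1
    rw [Nat.cast_add, Nat.cast_pow, Nat.cast_ofNat] at h3
    calc (2 : ℝ) ^ (y + 1) ≤ (2 : ℝ) ^ (((κ + 1 : ℕ)) : ℝ) := by
          refine Real.rpow_le_rpow_of_exponent_le (by norm_num) ?_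
          have h4 : ((κ + 1 : ℕ) : ℝ) = (2 : ℝ) ^ a := by
            rw [hκ]
            push_cast
            rfl
          rw [h4]
          refine le_trans ?_ hk
          rw [hyy]
          nlinarith
      _ = (2 : ℝ) ^ (κ + 1) := Real.rpow_natCast _ _
      _ ≤ C.size + (n : ℝ) ^ (2 : ℝ) := h3.trans (by linarith)
  have h3 : (n : ℝ) ^ (2 : ℝ) ≤ (2 : ℝ) ^ y := by
    rw [Real.rpow_def_of_pos hn0, Real.rpow_def_of_pos (by norm_num : (0 : ℝ) < 2)]
    exact Real.exp_le_exp.2 (by linarith)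
  have h4 : (2 : ℝ) ^ (y + 1) = (2 : ℝ) ^ y * 2 := by
    rw [Real.rpow_add (by norm_num), Real.rpow_one]
  rw [h4] at h2
  linarith

end Pool.Agent.J6H7.Clq.CliqueFewNegations
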