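import Pool.Agent.H559R7.Behrend

/-!
# The numbers for cliques of polynomial size
-/

set_option autoImplicit false

namespace Pool.Agent.J6H7.Clq

open Filter Finset Pool.Agent.H559R4 Pool.Agent.H559R7 Pool.Agent.H520R2.NM

/-- the lower bound for the block problem -/
theorem two_pow_le {a κ : ℕ} (ha : 10 ≤ a) (hκ : κ + 1 = 2 ^ a) :
    2 ^ (κ + 1) ≤ 2 ^ ((κ + 1) * (13 * a)) / apx2 κ (13 * a) ^ 2 := by
  set k := 2 ^ a with hk
  have hk10 : 1024 ≤ k := by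
    calc 1024 = 2 ^ 10 := by norm_num
      _ ≤ 2 ^ a := Nat.pow_le_pow_right (by norm_num) ha
  have hak : a ≤ k := Nat.lt_two_pow_self.le
  have hκk : κ ≤ k := by omega
  have hpos : 0 < apx2 κ (13 * a) ^ 2 := pow_pos (apx2_pos (by omega) (by omega)) 2
  rw [Nat.le_div_iff_mul_le hpos]
  have h1 : apx2 κ (13 * a) ≤ k ^ (5 * k + 1) := by
    unfold apx2
    rw [hκ]
    have h2 : 64 * (k * (13 * a) * κ * κ) ≤ k ^ 5 := by
      calc 64 * (k * (13 * a) * κ * κ) ≤ 64 * (k * (13 * k) * k * k) := by gcongr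
        _ = 832 * k ^ 4 := by ring
        _ ≤ k * k ^ 4 := Nat.mul_le_mul_right _ (by omega)
        _ = k ^ 5 := by ring
    calc k * (64 * (k * (13 * a) * κ * κ)) ^ κ ≤ k * (k ^ 5) ^ κ :=
          Nat.mul_le_mul_left _ (Nat.pow_le_pow_left h2 _)
      _ ≤ k * (k ^ 5) ^ k := by
          refine Nat.mul_le_mul_left _ (Nat.pow_le_pow_right ?_ hκk)
          positivity
      _ = k ^ (5 * k + 1) := by
          rw [← pow_mul, pow_succ]
          ring
  have h3 : 2 ^ ((κ + 1) * (13 * a)) = k ^ (13 * k) := by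
    rw [hκ, hk, ← pow_mul]
    congr 1
    ring
  rw [h3, hκ]
  have h4 : k ^ k * (k ^ (5 * k + 1)) ^ 2 = k ^ (11 * k + 2) := by
    clear_value k
    rw [← pow_mul, ← pow_add]
    congr 1
    ring
  calc 2 ^ k * apx2 κ (13 * a) ^ 2 ≤ k ^ k * (k ^ (5 * k + 1)) ^ 2 := by
        refine Nat.mul_le_mul (Nat.pow_le_pow_left (by omega) _) (Nat.pow_le_pow_left h1 2)
    _ = k ^ (11 * k + 2) := h4
    _ ≤ k ^ (13 * k) := Nat.pow_le_pow_right (by omega) (by omega)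

/-- `n ^ x` beats constants -/
theorem ev_ge {x : ℝ} (hx : 0 < x) (c : ℝ) : ∀ᶠ n : ℕ in atTop, c ≤ (n : ℝ) ^ x :=
  ((tendsto_rpow_atTop hx).comp tendsto_natCast_atTop_atTop).eventually_ge_atTop c

/-- **The design.** -/
theorem exists_big_design {ε : ℝ} (hε : 0 < ε) (hε2 : ε < 2) : ∃ α : ℝ, 0 < α ∧ ∀ᶠ n : ℕ in atTop,
    ∃ P : ℕ, (n : ℝ) ^ (2 - ε) ≤ P ∧
      Nonempty (Design n (2 ^ ⌊α * Real.logb 2 n⌋₊) (2 ^ (13 * ⌊α * Real.logb 2 n⌋₊)) P) := by
  obtain ⟨r, hr⟩ := exists_nat_ge (8 / ε + 2)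
  have hr2 : 2 ≤ r := by
    have h1 : 0 < 8 / ε := by positivity
    have h2 : (2 : ℝ) ≤ r := by linarith
    exact_mod_cast h2
  have hr0 : (0 : ℝ) < r := by
    have : (2 : ℝ) ≤ r := by exact_mod_cast hr2
    linarith
  have hrε : 8 ≤ ε * r := by
    have h1 : 8 / ε ≤ r := by linarith
    rw [div_le_iff₀ hε] at h1
    linarith
  set α : ℝ := ε / (224 * (r + 1)) with hα
  have hα0 : 0 < α := by positivity
  set β : ℝ := (1 - ε / 8) / r with hβ
  refine ⟨α, hα0, ?_⟩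
  have hβ0 : 0 < β := by
    rw [hβ]
    apply div_pos _ hr0
    linarith
  have e1 : 0 < ε / 16 := by positivity
  have e2 : 0 < ε / 2 := by positivity
  filter_upwards [ev_ge hβ0 2, ev_ge e1 ((2 : ℝ) ^ r), ev_ge e2 ((r : ℝ) * 2 ^ (2 * r - 2)),
    eventually_ge_atTop 1] with n hn1 hn2 hn3 hn4
  have hn0 : (0 : ℝ) < n := by exact_mod_cast hn4
  have hn' : (1 : ℝ) ≤ n := by exact_mod_cast hn4
  set a := ⌊α * Real.logb 2 n⌋₊ with ha
  set L := ⌊(n : ℝ) ^ β⌋₊ with hL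
  have hL1 : 1 ≤ L := Nat.le_floor (by push_cast; linarith)
  have hLle : (L : ℝ) ≤ (n : ℝ) ^ β := Nat.floor_le (Real.rpow_nonneg hn0.le _)
  have hLge : (n : ℝ) ^ β / 2 ≤ L := by
    have := Nat.lt_floor_add_one ((n : ℝ) ^ β)
    rw [← hL] at this
    linarith
  have hk : ((2 : ℝ) ^ a) ≤ (n : ℝ) ^ α := by
    have h0 : 0 ≤ α * Real.logb 2 n :=
      mul_nonneg hα0.le (Real.logb_nonneg (by norm_num) hn')
    have h1 : (a : ℝ) ≤ α * Real.logb 2 n := Nat.floor_le h0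
    calc ((2 : ℝ) ^ a) = (2 : ℝ) ^ ((a : ℕ) : ℝ) := (Real.rpow_natCast _ _).symm
      _ ≤ (2 : ℝ) ^ (α * Real.logb 2 n) := Real.rpow_le_rpow_of_exponent_le (by norm_num) h1
      _ = ((2 : ℝ) ^ Real.logb 2 n) ^ α := by
        rw [mul_comm, Real.rpow_mul (by norm_num)]
      _ = (n : ℝ) ^ α := by
        rw [Real.rpow_logb (by norm_num) (by norm_num) (by linarith)]
  set z := 2 ^ a * 2 ^ (13 * a) with hz
  have hz1 : 1 ≤ z := Nat.mul_pos (by positivity) (by positivity)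
  have hzle : (z : ℝ) ≤ (n : ℝ) ^ (14 * α) := by
    have : (z : ℝ) = ((2 : ℝ) ^ a) ^ 14 := by
      rw [hz]
      push_cast
      rw [← pow_mul, ← pow_add]
      congr 1
      ring
    rw [this]
    calc ((2 : ℝ) ^ a) ^ 14 ≤ ((n : ℝ) ^ α) ^ 14 := pow_le_pow_left₀ (by positivity) hk 14
      _ = (n : ℝ) ^ (14 * α) := by
        rw [← Real.rpow_natCast, ← Real.rpow_mul hn0.le]
        congr 1
        push_cast
        ring
  -- the points fit
  have hfit : (2 * z * L) ^ r * z ≤ n := by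
    have h1 : ((2 : ℝ) * z * L) ^ r * z ≤ n := by
      calc ((2 : ℝ) * z * L) ^ r * z = 2 ^ r * (z : ℝ) ^ (r + 1) * (L : ℝ) ^ r := by ring
        _ ≤ (n : ℝ) ^ (ε / 16) * ((n : ℝ) ^ (14 * α)) ^ (r + 1) * ((n : ℝ) ^ β) ^ r := by
          gcongr
        _ = (n : ℝ) ^ (ε / 16 + 14 * α * (r + 1 : ℕ) + β * (r : ℕ)) := by
          rw [← Real.rpow_natCast, ← Real.rpow_natCast ((n : ℝ) ^ β),
            ← Real.rpow_mul hn0.le, ← Real.rpow_mul hn0.le, ← Real.rpow_add hn0,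
            ← Real.rpow_add hn0]
        _ = n := by
          have : ε / 16 + 14 * α * (r + 1 : ℕ) + β * (r : ℕ) = 1 := by
            rw [hα, hβ]
            push_cast
            field_simp
            ring
          rw [this, Real.rpow_one]
    exact_mod_cast h1
  obtain ⟨P, hP, hD⟩ := exists_behrend (n := n) (k := 2 ^ a) (q := 2 ^ (13 * a)) (r := r)
    (X := z * L) (L := L) (W := 2 * z * L) (by omega) hL1 (by rw [← hz]; nlinarith)
    (by rw [← hz]; exact hfit)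
  refine ⟨P, ?_, hD⟩
  have h1 : (L : ℝ) ^ (2 * r - 2) ≤ r * P := by
    have h2 : L ^ r * L ^ r ≤ r * L ^ 2 * P := by
      refine le_trans (Nat.mul_le_mul_left _ (Nat.pow_le_pow_left ?_ _)) hP
      exact Nat.le_mul_of_pos_left _ hz1
    have h3 : L ^ (2 * r - 2) * L ^ 2 ≤ r * P * L ^ 2 := by
      calc L ^ (2 * r - 2) * L ^ 2 = L ^ r * L ^ r := by
            rw [← pow_add, ← pow_add]
            congr 1
            omega
        _ ≤ r * L ^ 2 * P := h2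
        _ = r * P * L ^ 2 := by ring
    have h4 := Nat.le_of_mul_le_mul_right h3 (by positivity)
    exact_mod_cast h4
  have h2 : (n : ℝ) ^ (2 - ε / 2) ≤ ((n : ℝ) ^ β) ^ (2 * r - 2) := by
    rw [← Real.rpow_natCast, ← Real.rpow_mul hn0.le]
    refine Real.rpow_le_rpow_of_exponent_le hn' ?_
    have h3 : ((2 * r - 2 : ℕ) : ℝ) = 2 * r - 2 := by
      rw [Nat.cast_sub (by omega)]
      push_cast
      ring
    rw [h3, hβ, div_mul_eq_mul_div, le_div_iff₀ hr0]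
    nlinarith
  have h3 : ((n : ℝ) ^ β / 2) ^ (2 * r - 2) ≤ r * P :=
    (pow_le_pow_left₀ (by positivity) hLge _).trans h1
  rw [div_pow, div_le_iff₀ (by positivity)] at h3
  have h4 : (n : ℝ) ^ (2 - ε / 2) = (n : ℝ) ^ (2 - ε) * (n : ℝ) ^ (ε / 2) := by
    rw [← Real.rpow_add hn0]
    congr 1
    ring
  have h5 : (n : ℝ) ^ (2 - ε) * (r * 2 ^ (2 * r - 2)) ≤ r * P * 2 ^ (2 * r - 2) := by
    refine le_trans (mul_le_mul_of_nonneg_left hn3 (Real.rpow_nonneg hn0.le _)) ?_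
    rw [← h4]
    exact h2.trans h3
  have h6 : (n : ℝ) ^ (2 - ε) * (r * 2 ^ (2 * r - 2)) =
      (n : ℝ) ^ (2 - ε) * (r * 2 ^ (2 * r - 2)) := rfl
  have h7 : (0 : ℝ) < r * 2 ^ (2 * r - 2) := by positivity
  have h8 : (r : ℝ) * P * 2 ^ (2 * r - 2) = P * (r * 2 ^ (2 * r - 2)) := by ring
  rw [h8] at h5
  exact le_of_mul_le_mul_right h5 h7

end Pool.Agent.J6H7.Clq
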